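import Pool.Agent.TH313.HI.Main

/-!
# MP_2e5724_an, Q2: property (H) does not characterise Hilbert spaces among separable Banach spaces

`X` is the closed linear span of Davie's vectors in a sum `W` of finite-dimensional spaces `ℓ_∞ⁿ`
whose norm is of mixed Tsirelson type with coded (special) functionals, as in the construction of
hereditarily indecomposable spaces. Every bounded operator `T : X → W` is nearly a scalar `λ(T)`
on all rapidly increasing sequences of `X`, so that `T` is proper on bounded sets if `λ(T) ≠ 0`;
and Davie's approximate traces converge to `λ(T)` uniformly on bounded sets of operators on `X`,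
so that `λ` is continuous along bounded nets which converge strongly to the identity. Applied to
`n (n + A)⁻¹`, this shows that each sectorial operator `A` is bounded, and applied to
`t (t + A)⁻¹` with `t → 0` that `X` is the direct sum of the kernel and the closed range of `A`.
Such an operator is `R`-sectorial. As a projection `P` has `λ(P) ∈ {0, 1}`, either its range or its
kernel is finite-dimensional, so `X` is not isomorphic to a Hilbert space.
-/

set_option autoImplicit false

namespace Pool.Agent.Results.MP_2e5724_an.SeparableNonHilbert

open Pool.Agent.TH313.HI

/-- There is a separable complex Banach space `X` with property (H) which is not isomorphic to a Hilbert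
space; moreover each sectorial operator on `X`, of whatever angle less than `π`, is everywhere defined
(so bounded) and `R`-sectorial. -/
theorem result : ∃ (X : Type) (_ : NormedAddCommGroup X) (_ : NormedSpace ℂ X), CompleteSpace X ∧
    TopologicalSpace.SeparableSpace X ∧ PropertyH X ∧
    (∀ A : X →ₗ.[ℂ] X, A.IsClosed → Dense (A.domain : Set X) →
      (∃ ω : ℝ, 0 < ω ∧ ω < Real.pi ∧ IsSectorialOfAngle A ω) → A.domain = ⊤ ∧ IsRSectorial A) ∧
    ∀ (H : Type) [NormedAddCommGroup H] [InnerProductSpace ℂ H] [CompleteSpace H], IsEmpty (X ≃L[ℂ] H) :=
  main

end Pool.Agent.Results.MP_2e5724_an.SeparableNonHilbert
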